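import Pool.Agent.W477.GM.Stms

set_option maxHeartbeats 1000000
set_option linter.all false

namespace Pool.Agent.W477.GM.W828Cod

open Pool.Agent.W477.GM

lemma mem_ofNat (x : PSet.{0}) : ∀ n : ℕ,
    x ∈ PSet.ofNat.{0} n ↔ ∃ m, m < n ∧ PSet.Equiv.{0, 0} x (PSet.ofNat.{0} m)
  | 0 => by
    constructor
    · intro h
      exact absurd h (PSet.notMem_empty x)
    · rintro ⟨m, hm, -⟩
      omega
  | n + 1 => by
    have h : x ∈ PSet.ofNat.{0} (n + 1) ↔
        PSet.Equiv.{0, 0} x (PSet.ofNat.{0} n) ∨ x ∈ PSet.ofNat.{0} n :=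
      PSet.mem_insert_iff
    rw [h, mem_ofNat x n]
    constructor
    · rintro (h5 | ⟨m, hm, h5⟩)
      · exact ⟨n, by omega, h5⟩
      · exact ⟨m, by omega, h5⟩
    · rintro ⟨m, hm, h5⟩
      rcases Nat.lt_succ_iff_lt_or_eq.1 hm with h1 | h1
      · exact Or.inr ⟨m, h1, h5⟩
      · rw [h1] at h5
        exact Or.inl h5

lemma ofNat_not (m n : ℕ) (h : m < n) :
    ¬ PSet.Equiv.{0, 0} (PSet.ofNat.{0} m) (PSet.ofNat.{0} n) := by
  intro he
  have h1 : PSet.ofNat.{0} m ∈ PSet.ofNat.{0} n := (mem_ofNat _ n).2 ⟨m, h, PSet.Equiv.refl _⟩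
  have h2 : PSet.ofNat.{0} m ∈ PSet.ofNat.{0} m := (PSet.Mem.congr_right he).2 h1
  exact PSet.mem_irrefl _ h2

lemma ofNat_inj (m n : ℕ) (h : PSet.Equiv.{0, 0} (PSet.ofNat.{0} m) (PSet.ofNat.{0} n)) :
    m = n := by
  rcases lt_trichotomy m n with h1 | h1 | h1
  · exact absurd h (ofNat_not m n h1)
  · exact h1
  · exact absurd h.symm (ofNat_not n m h1)

section
variable {P : Type 1} [PartialOrder P] [OrderTop P]

lemma topl (g : P ≃o P) (u : P) : (g.symm u = ⊤) = (u = ⊤) := by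
  apply propext
  constructor
  · intro h
    have : g (g.symm u) = g ⊤ := by rw [h]
    rw [OrderIso.apply_symm_apply, OrderIso.map_top] at this
    exact this
  · intro h
    rw [h, OrderIso.map_top]

lemma codF (h : EqF P) (h1 : ActF P) (h3 : PrF P) (h4 : P_HS) : CodF P where
  inj := by
    intro c d hcd
    have := ofNat_inj _ _ hcd
    exact Str.ext' (Encodable.encode_injective this)
  mem_b := by
    intro x p
    constructor
    · intro hm q hq
      obtain ⟨r, hr, j, -, hj⟩ := hm q hq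
      exact ⟨r, hr, j, hj⟩
    · intro hm q hq
      obtain ⟨r, hr, j, hj⟩ := hm q hq
      exact ⟨r, hr, j, h3.top r, hj⟩
  mem_r := by
    intro x y p
    constructor
    · intro hm q hq
      obtain ⟨r, hr, j, -, hj⟩ := hm q hq
      exact ⟨r, hr, j.1.1, j.1.2, j.2, (h3.op _ _ _ _ _).1 hj⟩
    · intro hm q hq
      obtain ⟨r, hr, c, d, hcd, hj⟩ := hm q hq
      exact ⟨r, hr, ⟨(c, d), hcd⟩, h3.top r, (h3.op _ _ _ _ _).2 hj⟩
  hs := by
    intro S hS
    have hH := h4 P S hS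
    obtain ⟨e⟩ := hS.ne
    refine ⟨⟨⟨0, ?_⟩, ⟨e, ?_⟩, ?_⟩, ⟨⟨0, ?_⟩, ⟨e, ?_⟩, ?_⟩⟩
    · intro i u hu
      rw [show u = ⊤ from hu]
      exact hH.rtop 0
    · intro g hg p
      have : act g (.mk Str (fun _ u => u = ⊤) (fun c => chk (cd c)) : Nm P)
          = .mk Str (fun _ u => u = ⊤) (fun c => chk (cd c)) := by
        simp only [act, h1.chk, topl]
      rw [this]
      exact h.refl _ _
    · intro i
      exact hH.chk _
    · intro i u hu
      rw [show u = ⊤ from hu]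
      exact hH.rtop 0
    · intro g hg p
      have : act g (.mk {c : Str × Str // c.1 ≤ c.2} (fun _ u => u = ⊤)
          (fun c => opN (chk (cd c.1.1)) (chk (cd c.1.2))) : Nm P)
          = .mk {c : Str × Str // c.1 ≤ c.2} (fun _ u => u = ⊤)
          (fun c => opN (chk (cd c.1.1)) (chk (cd c.1.2))) := by
        simp only [act, h1.op, h1.chk, topl]
      rw [this]
      exact h.refl _ _
    · intro i
      exact hH.op _ _ (hH.chk _) (hH.chk _)

end

lemma rs_cz (K : J → Prop) (c : Str) : rs K (cz c : QQ) = cz c := by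
  refine Cn.ext' rfl ?_ ?_
  · intro j
    simp [rs, cz]
  · intro j o ho
    simp [rs, cz]

lemma fl_cz (z : J → Ordinal.{0} → Bool) (c : Str) : fl z (cz c : QQ) = cz c := by
  refine Cn.ext' rfl ?_ ?_
  · intro j
    rfl
  · intro j o ho
    exact absurd ho (not_lt.2 zero_le)

lemma lab_cz (c : Str) (r : QQ) : Lab (fun q : QQ => q = cz c) r ↔ r.c ≤ c := by
  constructor
  · rintro ⟨u, hu, hr⟩
    rw [show u = cz c from hu] at hr
    exact hr.1
  · intro hr
    exact ⟨cz c, rfl, hr, fun j => ⟨zero_le, fun o ho => absurd ho (not_lt.2 zero_le)⟩⟩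

lemma lab_pj (r : QQ) : Lab (fun q : QQ => pj q = (⊤ : PP)) r := ⟨⊤, rfl, le_top⟩

theorem cod_holds (h : P_EQ) (h1 : P_ACT) (h3 : P_PR) (h4 : P_HS) (hl : P_LIFT) (hc : P_CAX)
    (hk : P_KAP) (hs : P_SYSC) : P_COD := by
  have hS : SysAx SQ := hs hk Str slen hc.2
  have hH := h4 QQ SQ hS
  refine ⟨fun P _ _ => codF (h P) (h1 P) (h3 P) h4, ⟨⟨0, ?_⟩, ⟨(∅ : Finset (Ordinal.{0} × ℕ)), ?_⟩, ?_⟩, ?_, ?_, ?_⟩
  · intro c u hu
    rw [show u = cz c from hu]
    exact rs_cz _ c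
  · intro g hg p
    obtain ⟨z, -, -, hz⟩ := hg
    have hgc : ∀ c : Str, g (cz c) = cz c := fun c => by rw [hz, fl_cz]
    have hgs : ∀ (c : Str) (u : QQ), (g.symm u = cz c) = (u = cz c) := by
      intro c u
      apply propext
      constructor
      · intro h5
        have h6 : g (g.symm u) = g (cz c) := by rw [h5]
        rw [OrderIso.apply_symm_apply, hgc] at h6
        exact h6
      · intro h5
        rw [h5]
        have h6 : g.symm (g (cz c)) = cz c := OrderIso.symm_apply_apply g _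
        rw [hgc] at h6
        exact h6
    have : act g (.mk Str (fun c q => q = cz c) (fun c => chk (cd c)) : Nm QQ)
        = .mk Str (fun c q => q = cz c) (fun c => chk (cd c)) := by
      simp only [act, (h1 QQ).chk, hgs]
    rw [this]
    exact (h QQ).refl _ _
  · intro c
    exact hH.chk _
  · intro x p
    constructor
    · intro hm q hq
      obtain ⟨r, hr, c, hL, hj⟩ := hm q hq
      exact ⟨r, hr, c, (lab_cz c r).1 hL, hj⟩
    · intro hm q hq
      obtain ⟨r, hr, c, hL, hj⟩ := hm q hq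
      exact ⟨r, hr, c, (lab_cz c r).2 hL, hj⟩
  · intro q
    refine ⟨fun c q' hq' _ => ⟨q', le_rfl, c, (h3 QQ).top q', hl.chk _ _⟩,
      fun c q' hq' _ => ⟨q', le_rfl, c, lab_pj q', hl.chk _ _⟩⟩
  · intro q
    have key : ∀ (c : {c : Str × Str // c.1 ≤ c.2}) (q' : QQ),
        feq (lift (opN (chk (cd c.1.1)) (chk (cd c.1.2))))
          (opN (chk (cd c.1.1)) (chk (cd c.1.2))) q' := by
      intro c q'
      refine (h QQ).trans _ _ _ q' (hl.op _ _ q') ?_
      exact ((h3 QQ).op _ _ _ _ _).2 ⟨hl.chk _ _, hl.chk _ _⟩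
    refine ⟨fun c q' hq' _ => ⟨q', le_rfl, c, (h3 QQ).top q', key c q'⟩,
      fun c q' hq' _ => ⟨q', le_rfl, c, lab_pj q', key c q'⟩⟩

end Pool.Agent.W477.GM.W828Cod
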